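import Pool.Agent.Q26.CoxU3

set_option autoImplicit false

namespace Pool.Agent.Results.MP_241ca8_al.CatchmentNotClosed

open Filter Topology LinearAlgebra.Projectivization Pool.Agent.Q26.CoxLim

/-- The catchment set of the limit roots: the points whose limit directions are exactly the limit
roots. -/
def catchment {ι : Type} [Fintype ι] [DecidableEq ι] (D : GeomCoxeter ι) : Set (ℙ ℝ (ι → ℝ)) :=
  {p | D.limDir p = D.limRoots}

/-! ### Estimates -/

lemma sg_smul (c : ℝ) (x : Fin 3 → ℝ) : sg (c • x) = c * sg x := by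
  unfold sg
  simp only [Pi.smul_apply, smul_eq_mul]
  ring

lemma sg_sq (u : Fin 3 → ℝ) :
    sg u ^ 2 = 1 / 3 * (U3.form (al 0) u ^ 2 + U3.form (al 1) u ^ 2 + U3.form (al 2) u ^ 2) -
      5 / 6 * U3.form u u := by
  rw [U3_form_al, U3_form_al, U3_form_al, U3_form]
  unfold sg
  ring

lemma dirs (u β : Fin 3 → ℝ) (hu : sg u ≠ 0) (hβ : sg β ≠ 0) :
    (u 0 / sg u - β 0 / sg β) ^ 2 + (u 1 / sg u - β 1 / sg β) ^ 2 +
      (u 2 / sg u - β 2 / sg β) ^ 2 =
    2 / 5 * (U3.form u u / sg u ^ 2 - 2 * U3.form u β / (sg u * sg β) +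
      U3.form β β / sg β ^ 2) := by
  rw [U3_form, U3_form, U3_form]
  field_simp
  ring

lemma sg_tendsto {u : ℕ → Fin 3 → ℝ} {v : Fin 3 → ℝ} (h : Tendsto u atTop (𝓝 v)) :
    Tendsto (fun n => sg (u n)) atTop (𝓝 (sg v)) := by
  rw [tendsto_pi_nhds] at h
  exact ((h 0).add (h 1)).add (h 2)

lemma form_tendsto {u : ℕ → Fin 3 → ℝ} {v : Fin 3 → ℝ} (h : Tendsto u atTop (𝓝 v)) :
    Tendsto (fun n => U3.form (u n) (u n)) atTop (𝓝 (U3.form v v)) := by
  have hs := sg_tendsto h
  rw [tendsto_pi_nhds] at h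
  simp only [U3_form]
  exact ((((((h 0).mul (h 0)).add ((h 1).mul (h 1))).add ((h 2).mul (h 2))).const_mul _)).sub
    ((hs.const_mul _).mul hs)

lemma form_smul_smul (c : ℝ) (x : Fin 3 → ℝ) : U3.form (c • x) (c • x) = c ^ 2 * U3.form x x := by
  rw [U3.form_smul_right, U3.form_comm, U3.form_smul_right]
  ring

/-- Vectors of fixed norm going to infinity with convergent directions: the limit is light-like and
the scalars tend to zero. -/
lemma light_of_tendsto {u : ℕ → Fin 3 → ℝ} {b : ℕ → ℝ} {v : Fin 3 → ℝ} {c : ℝ}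
    (h : Tendsto (fun n => b n • u n) atTop (𝓝 v)) (hc : ∀ n, U3.form (u n) (u n) = c)
    (hs : Tendsto (fun n => |sg (u n)|) atTop atTop) :
    Tendsto b atTop (𝓝 0) ∧ U3.form v v = 0 := by
  have h1 := (sg_tendsto h).abs
  have h2 : Tendsto (fun n => |b n|) atTop (𝓝 0) := by
    have h3 := h1.div_atTop hs
    have h4 : ∀ᶠ n in atTop, 0 < |sg (u n)| := hs.eventually_gt_atTop 0
    refine h3.congr' ?_
    filter_upwards [h4] with n hn
    rw [sg_smul, abs_mul, mul_div_assoc, div_self hn.ne', mul_one]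
  have h5 : Tendsto b atTop (𝓝 0) := (tendsto_zero_iff_abs_tendsto_zero _).2 h2
  refine ⟨h5, ?_⟩
  have h6 := form_tendsto h
  have h7 : Tendsto (fun n => U3.form (b n • u n) (b n • u n)) atTop (𝓝 (0 ^ 2 * c)) := by
    refine ((h5.pow 2).mul_const c).congr (fun n => ?_)
    rw [form_smul_smul, hc]
  have h8 := tendsto_nhds_unique h6 h7
  rw [h8]
  ring

lemma sg_ne_zero {v : Fin 3 → ℝ} (hv : v ≠ 0) (h : U3.form v v = 0) : sg v ≠ 0 := by
  intro hs
  rw [U3_form, hs] at h
  apply hv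
  have h0 : v 0 = 0 := by nlinarith [sq_nonneg (v 0), sq_nonneg (v 1), sq_nonneg (v 2)]
  have h1 : v 1 = 0 := by nlinarith [sq_nonneg (v 0), sq_nonneg (v 1), sq_nonneg (v 2)]
  have h2 : v 2 = 0 := by nlinarith [sq_nonneg (v 0), sq_nonneg (v 1), sq_nonneg (v 2)]
  ext i
  fin_cases i
  · exact h0
  · exact h1
  · exact h2

lemma mk_ne_of_form {u v : Fin 3 → ℝ} (hu : u ≠ 0) (hv : v ≠ 0) (h : U3.form u u ≠ 0)
    (h' : U3.form v v = 0) : Projectivization.mk ℝ u hu ≠ Projectivization.mk ℝ v hv := by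
  intro heq
  rw [Projectivization.mk_eq_mk_iff'] at heq
  obtain ⟨a, ha⟩ := heq
  apply h
  rw [← ha, form_smul_smul, h', mul_zero]

lemma form_root {g : (Fin 3 → ℝ) ≃ₗ[ℝ] (Fin 3 → ℝ)} (hg : g ∈ U3.W) (i : Fin 3) :
    U3.form (g (al i)) (g (al i)) = 1 := by
  rw [U3.form_W hg, U3.form_al_al, U3.b_diag]

/-- The sequences behind a limit root. -/
lemma limRoot_seq {v : Fin 3 → ℝ} (hv : v ≠ 0)
    (h : Projectivization.mk ℝ v hv ∈ U3.limRoots) :
    ∃ (g : ℕ → (Fin 3 → ℝ) ≃ₗ[ℝ] (Fin 3 → ℝ)) (s : ℕ → Fin 3) (b : ℕ → ℝ),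
      (∀ n, g n ∈ U3.W) ∧ Tendsto (fun n => b n • g n (al (s n))) atTop (𝓝 v) ∧
      Tendsto (fun n => l1 (g n (al (s n)))) atTop atTop ∧ Tendsto b atTop (𝓝 0) ∧
      U3.form v v = 0 := by
  obtain ⟨u, hu, hlim, hC, hne⟩ := seq_of_acc hv h
  have h1 : ∀ n, ∃ g ∈ U3.W, ∃ s : Fin 3, ∃ b : ℝ, b • g (al s) = u n := by
    intro n
    obtain ⟨s, hs⟩ := hC n
    rw [U3.orbit_mk] at hs
    obtain ⟨g, hg, h2, h3⟩ := hs
    rw [Projectivization.mk_eq_mk_iff'] at h3
    obtain ⟨b, hb⟩ := h3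
    exact ⟨g, hg, s, b, hb⟩
  choose g hg s b hb using h1
  have hlim' : Tendsto (fun n => b n • g n (al (s n))) atTop (𝓝 v) := by
    simp only [hb]
    exact hlim
  have hne0 : ∀ n, g n (al (s n)) ≠ 0 := fun n h =>
    al_ne_zero (s n) ((g n).injective (h.trans (map_zero (g n)).symm))
  have hne' : ∀ n, Projectivization.mk ℝ (g n (al (s n))) (hne0 n) ≠
      Projectivization.mk ℝ v hv := by
    intro n hn
    apply hne n
    rw [← hn, Projectivization.mk_eq_mk_iff']
    exact ⟨b n, hb n⟩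
  let β : ℕ → Phi := fun n => ⟨g n (al (s n)), g n, hg n, s n, rfl⟩
  have hβ : Tendsto β atTop cofinite := by
    apply tendsto_of_fibers
    intro w
    refine (finite_fiber hv hne0 hlim' hne' w.1).subset ?_
    intro n hn
    exact congrArg Subtype.val hn
  have hl1 : Tendsto (fun n => l1 (g n (al (s n)))) atTop atTop := l1_tendsto.comp hβ
  have hsg : Tendsto (fun n => |sg (g n (al (s n)))|) atTop atTop := by
    refine hl1.congr (fun n => ?_)
    rw [W_sg (hg n)]
  obtain ⟨h5, h6⟩ := light_of_tendsto hlim' (fun n => form_root (hg n) (s n)) hsg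
  exact ⟨g, s, b, hg, hlim', hl1, h5, h6⟩

lemma refl_conj {g : (Fin 3 → ℝ) ≃ₗ[ℝ] (Fin 3 → ℝ)} (hg : g ∈ U3.W) (s : Fin 3)
    (x : Fin 3 → ℝ) :
    (g * U3.refl s * g⁻¹) x = x - (2 * U3.form (g (al s)) x) • g (al s) := by
  have h0 : g (g⁻¹ x) = x := by
    show (g * g⁻¹) x = x
    rw [mul_inv_cancel]
    rfl
  have h1 : (g * U3.refl s * g⁻¹) x = g (U3.refl s (g⁻¹ x)) := rfl
  rw [h1, U3.refl_apply, map_sub, map_smul, h0]
  have h2 : U3.form (al s) (g⁻¹ x) = U3.form (g (al s)) x := by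
    rw [← U3.form_W hg, h0]
  rw [h2]

/-- Limit roots are limit directions of every space-like point on which all roots are large. -/
lemma limRoots_subset {x : Fin 3 → ℝ} (hx : x ≠ 0) {m : ℝ} (hm : 0 < m)
    (hxm : ∀ j, m ≤ U3.form (al j) x) (hxx : U3.form x x ≠ 0) :
    U3.limRoots ⊆ U3.limDir (Projectivization.mk ℝ x hx) := by
  intro q
  induction q using Projectivization.ind with
  | h v hv =>
    intro hq
    obtain ⟨g, s, b, hg, hlim, hl1, hb, hvv⟩ := limRoot_seq hv hq
    let β : ℕ → Fin 3 → ℝ := fun n => g n (al (s n))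
    let r : ℕ → (Fin 3 → ℝ) ≃ₗ[ℝ] (Fin 3 → ℝ) := fun n => g n * U3.refl (s n) * (g n)⁻¹
    have hr : ∀ n, r n ∈ U3.W := fun n =>
      U3.W.mul_mem (U3.W.mul_mem (hg n) (Subgroup.subset_closure ⟨s n, rfl⟩))
        (U3.W.inv_mem (hg n))
    have hrx : ∀ n, r n x = x - (2 * U3.form (β n) x) • β n := fun n => refl_conj (hg n) (s n) x
    have hform : Tendsto (fun n => |2 * U3.form (β n) x|) atTop atTop := by
      have h1 : Tendsto (fun n => (2 * m) * l1 (β n)) atTop atTop :=
        hl1.const_mul_atTop (by positivity)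
      refine tendsto_atTop_mono (fun n => ?_) h1
      rw [abs_mul, abs_of_pos (by norm_num : (0 : ℝ) < 2), mul_assoc]
      exact mul_le_mul_of_nonneg_left (W_form_ge (hg n) (s n) hxm) (by norm_num)
    have hne0 : ∀ n, r n x ≠ 0 := fun n h => hx ((r n).injective (h.trans (map_zero _).symm))
    have hc : Tendsto (fun n => b n / (2 * U3.form (β n) x)) atTop (𝓝 0) := by
      rw [tendsto_zero_iff_abs_tendsto_zero]
      have h1 := hb.abs.div_atTop hform
      refine h1.congr (fun n => ?_)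
      rw [Function.comp_apply, abs_div]
    have hpos : ∀ᶠ n in atTop, 0 < |2 * U3.form (β n) x| := hform.eventually_gt_atTop 0
    have hlim2 : Tendsto (fun n => (-(b n / (2 * U3.form (β n) x))) • r n x) atTop (𝓝 v) := by
      have h1 : Tendsto (fun n => (-(b n / (2 * U3.form (β n) x))) • x + b n • β n) atTop
          (𝓝 ((-(0 : ℝ)) • x + v)) := (hc.neg.smul_const x).add hlim
      rw [neg_zero, zero_smul, zero_add] at h1
      refine h1.congr' ?_
      filter_upwards [hpos] with n hn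
      have h2 : 2 * U3.form (β n) x ≠ 0 := abs_pos.1 hn
      rw [hrx, smul_sub, smul_smul]
      have h3 : -(b n / (2 * U3.form (β n) x)) * (2 * U3.form (β n) x) = -b n := by
        rw [neg_mul, div_mul_cancel₀ _ h2]
      rw [h3, neg_smul (b n), sub_neg_eq_add]
    refine acc_of_seq hv hne0 hlim2 ?_ ?_
    · intro n
      rw [U3.orbit_mk]
      exact ⟨r n, hr n, hne0 n, rfl⟩
    · intro n
      apply mk_ne_of_form _ _ _ hvv
      rw [U3.form_W (hr n)]
      exact hxx

lemma coord_conv {u β : ℕ → Fin 3 → ℝ} {v : Fin 3 → ℝ} {b : ℕ → ℝ}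
    (hlim : Tendsto (fun n => b n • u n) atTop (𝓝 v)) (hb0 : ∀ n, b n ≠ 0)
    (hv : sg v ≠ 0) {c d e : ℝ} (hc : ∀ n, U3.form (u n) (u n) = c)
    (hd : ∀ n, U3.form (β n) (β n) = d) (he : ∀ n, |U3.form (u n) (β n)| ≤ e)
    (hu : Tendsto (fun n => |sg (u n)|) atTop atTop)
    (hβ : Tendsto (fun n => |sg (β n)|) atTop atTop) :
    Tendsto (fun n => (sg v / sg (β n)) • β n) atTop (𝓝 v) := by
  have hu0 : ∀ᶠ n in atTop, sg (u n) ≠ 0 := by
    filter_upwards [hu.eventually_gt_atTop 0] with n hn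
    exact abs_pos.1 hn
  have hβ0 : ∀ᶠ n in atTop, sg (β n) ≠ 0 := by
    filter_upwards [hβ.eventually_gt_atTop 0] with n hn
    exact abs_pos.1 hn
  -- the right side of the identity tends to zero
  have z1 : Tendsto (fun n => c / sg (u n) ^ 2) atTop (𝓝 0) := by
    have h1 : Tendsto (fun n => |sg (u n)| ^ 2) atTop atTop :=
      (tendsto_pow_atTop two_ne_zero).comp hu
    refine (h1.const_div_atTop c).congr (fun n => ?_)
    rw [sq_abs]
  have z3 : Tendsto (fun n => d / sg (β n) ^ 2) atTop (𝓝 0) := by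
    have h1 : Tendsto (fun n => |sg (β n)| ^ 2) atTop atTop :=
      (tendsto_pow_atTop two_ne_zero).comp hβ
    refine (h1.const_div_atTop d).congr (fun n => ?_)
    rw [sq_abs]
  have z2 : Tendsto (fun n => 2 * U3.form (u n) (β n) / (sg (u n) * sg (β n))) atTop (𝓝 0) := by
    have h1 : Tendsto (fun n => |sg (u n)| * |sg (β n)|) atTop atTop := hu.atTop_mul_atTop₀ hβ
    have h2 : Tendsto (fun n => (2 * e) / (|sg (u n)| * |sg (β n)|)) atTop (𝓝 0) :=
      h1.const_div_atTop (2 * e)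
    apply squeeze_zero_norm _ h2
    intro n
    rw [Real.norm_eq_abs, abs_div, abs_mul, abs_mul, abs_of_pos (by norm_num : (0 : ℝ) < 2)]
    gcongr
    exact he n
  have hR : Tendsto (fun n => 2 / 5 * (c / sg (u n) ^ 2 -
      2 * U3.form (u n) (β n) / (sg (u n) * sg (β n)) + d / sg (β n) ^ 2)) atTop (𝓝 0) := by
    have h1 := ((z1.sub z2).add z3).const_mul (2 / 5 : ℝ)
    simpa using h1
  have hcoord : ∀ i, Tendsto (fun n => u n i / sg (u n) - β n i / sg (β n)) atTop (𝓝 0) := by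
    intro i
    have h1 : Tendsto (fun n => (u n i / sg (u n) - β n i / sg (β n)) ^ 2) atTop (𝓝 0) := by
      apply squeeze_zero' (Eventually.of_forall (fun n => sq_nonneg _)) _ hR
      filter_upwards [hu0, hβ0] with n h2 h3
      have h4 := dirs (u n) (β n) h2 h3
      rw [hc, hd] at h4
      rw [← h4]
      have p0 := sq_nonneg (u n 0 / sg (u n) - β n 0 / sg (β n))
      have p1 := sq_nonneg (u n 1 / sg (u n) - β n 1 / sg (β n))
      have p2 := sq_nonneg (u n 2 / sg (u n) - β n 2 / sg (β n))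
      fin_cases i
      · show (u n 0 / sg (u n) - β n 0 / sg (β n)) ^ 2 ≤ _
        linarith
      · show (u n 1 / sg (u n) - β n 1 / sg (β n)) ^ 2 ≤ _
        linarith
      · show (u n 2 / sg (u n) - β n 2 / sg (β n)) ^ 2 ≤ _
        linarith
    have h2 := h1.sqrt
    rw [Real.sqrt_zero] at h2
    rw [tendsto_zero_iff_abs_tendsto_zero]
    refine h2.congr (fun n => ?_)
    rw [Real.sqrt_sq_eq_abs]
    rfl
  have hs := sg_tendsto hlim
  rw [tendsto_pi_nhds] at hlim ⊢
  intro i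
  have h1 : Tendsto (fun n => u n i / sg (u n)) atTop (𝓝 (v i / sg v)) := by
    have h2 := (hlim i).div hs hv
    refine h2.congr (fun n => ?_)
    show (b n • u n) i / sg (b n • u n) = u n i / sg (u n)
    rw [sg_smul, Pi.smul_apply, smul_eq_mul, mul_div_mul_left _ _ (hb0 n)]
  have h2 : Tendsto (fun n => sg v * (u n i / sg (u n) -
      (u n i / sg (u n) - β n i / sg (β n)))) atTop (𝓝 (sg v * (v i / sg v - 0))) :=
    (h1.sub (hcoord i)).const_mul _
  rw [sub_zero, mul_div_cancel₀ _ hv] at h2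
  refine h2.congr (fun n => ?_)
  rw [Pi.smul_apply, smul_eq_mul]
  ring

lemma exists_large (g : (Fin 3 → ℝ) ≃ₗ[ℝ] (Fin 3 → ℝ)) :
    ∃ i, NN g ≤ 3 * l1 (g (al i)) := by
  by_contra hcon
  push Not at hcon
  have h0 := hcon 0
  have h1 := hcon 1
  have h2 := hcon 2
  unfold NN at h0 h1 h2
  linarith

/-- Limit directions of a point on which all roots are large are limit roots. -/
lemma subset_limRoots {x : Fin 3 → ℝ} (hx : x ≠ 0) {m : ℝ} (hm : 0 < m)
    (hxm : ∀ j, m ≤ U3.form (al j) x) :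
    U3.limDir (Projectivization.mk ℝ x hx) ⊆ U3.limRoots := by
  intro q
  induction q using Projectivization.ind with
  | h v hv =>
    intro hq
    obtain ⟨u, hu, hlim, hC, hne⟩ := seq_of_acc hv hq
    have h1 : ∀ n, ∃ g ∈ U3.W, ∃ b : ℝ, b • g x = u n := by
      intro n
      have h2 := hC n
      rw [U3.orbit_mk] at h2
      obtain ⟨g, hg, h3, h4⟩ := h2
      rw [Projectivization.mk_eq_mk_iff'] at h4
      obtain ⟨b, hb⟩ := h4
      exact ⟨g, hg, b, hb⟩
    choose g hg b hb using h1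
    have hb0 : ∀ n, b n ≠ 0 := by
      intro n h
      apply hu n
      rw [← hb n, h, zero_smul]
    have hlim' : Tendsto (fun n => b n • g n x) atTop (𝓝 v) := by
      simp only [hb]
      exact hlim
    have hne0 : ∀ n, g n x ≠ 0 := fun n h => hx ((g n).injective (h.trans (map_zero _).symm))
    have hne' : ∀ n, Projectivization.mk ℝ (g n x) (hne0 n) ≠ Projectivization.mk ℝ v hv := by
      intro n hn
      apply hne n
      rw [← hn, Projectivization.mk_eq_mk_iff']
      exact ⟨b n, hb n⟩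
    let G : ℕ → U3.W := fun n => ⟨g n, hg n⟩
    have hG : Tendsto G atTop cofinite := by
      apply tendsto_of_fibers
      intro h
      refine (finite_fiber hv hne0 hlim' hne' (h.1 x)).subset ?_
      intro n hn
      have h2 : g n = h.1 := congrArg Subtype.val hn
      show g n x = h.1 x
      rw [h2]
    have hN1 := NN_tendsto.comp hG
    have hN : Tendsto (fun n => NN (g n)) atTop atTop := hN1.congr (fun n => rfl)
    have hinj : Function.Injective (fun h : U3.W => h⁻¹) := inv_injective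
    have hinv : Tendsto (fun n => (G n)⁻¹) atTop cofinite := hinj.tendsto_cofinite.comp hG
    have hN0 := NN_tendsto.comp hinv
    have hcoe : ∀ n, ((G n)⁻¹).1 = (g n)⁻¹ := fun n => Subgroup.coe_inv U3.W (G n)
    have hN' : Tendsto (fun n => NN (g n)⁻¹) atTop atTop :=
      hN0.congr (fun n => congrArg NN (hcoe n))
    -- the sums of the coordinates of `g n x` tend to infinity
    have hbound : ∀ n, m ^ 2 / 9 * NN (g n)⁻¹ ^ 2 - 5 / 6 * U3.form x x ≤ sg (g n x) ^ 2 := by
      intro n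
      rw [sg_sq, U3.form_W (hg n)]
      have h2 : ∀ i, (m * l1 ((g n)⁻¹ (al i))) ^ 2 ≤ U3.form (al i) (g n x) ^ 2 := by
        intro i
        have h3 := W_form_ge (U3.W.inv_mem (hg n)) i hxm
        have h4 : U3.form ((g n)⁻¹ (al i)) x = U3.form (al i) (g n x) := by
          have h5 : g n ((g n)⁻¹ (al i)) = al i := by
            show (g n * (g n)⁻¹) (al i) = al i
            rw [mul_inv_cancel]
            rfl
          rw [← U3.form_W (hg n), h5]
        rw [h4] at h3
        rw [← sq_abs (U3.form (al i) (g n x))]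
        have h6 : 0 ≤ m * l1 ((g n)⁻¹ (al i)) := mul_nonneg hm.le (l1_nonneg _)
        gcongr
      have k0 := h2 0
      have k1 := h2 1
      have k2 := h2 2
      unfold NN
      nlinarith [sq_nonneg (m * l1 ((g n)⁻¹ (al 0)) - m * l1 ((g n)⁻¹ (al 1))),
        sq_nonneg (m * l1 ((g n)⁻¹ (al 1)) - m * l1 ((g n)⁻¹ (al 2))),
        sq_nonneg (m * l1 ((g n)⁻¹ (al 0)) - m * l1 ((g n)⁻¹ (al 2)))]
    have hsq : Tendsto (fun n => sg (g n x) ^ 2) atTop atTop := by
      refine tendsto_atTop_mono hbound ?_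
      apply tendsto_atTop_add_const_right
      exact ((tendsto_pow_atTop two_ne_zero).comp hN').const_mul_atTop (by positivity)
    have hsu : Tendsto (fun n => |sg (g n x)|) atTop atTop := by
      refine (Real.tendsto_sqrt_atTop.comp hsq).congr (fun n => ?_)
      rw [Function.comp_apply, Real.sqrt_sq_eq_abs]
    choose i hi using fun n => exists_large (g n)
    have hsβ : Tendsto (fun n => |sg (g n (al (i n)))|) atTop atTop := by
      refine tendsto_atTop_mono (fun n => ?_) (hN.const_mul_atTop (by norm_num : (0:ℝ) < 1 / 3))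
      rw [W_sg (hg n)]
      linarith [hi n]
    obtain ⟨_, hvv⟩ := light_of_tendsto hlim' (fun n => U3.form_W (hg n) x x) hsu
    have hsv := sg_ne_zero hv hvv
    have hconv := coord_conv (β := fun n => g n (al (i n)))
      (e := |U3.form x (al 0)| + |U3.form x (al 1)| + |U3.form x (al 2)|)
      hlim' hb0 hsv (fun n => U3.form_W (hg n) x x)
      (fun n => form_root (hg n) (i n)) (fun n => by
        rw [U3.form_W (hg n)]
        have p0 := abs_nonneg (U3.form x (al 0))
        have p1 := abs_nonneg (U3.form x (al 1))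
        have p2 := abs_nonneg (U3.form x (al 2))
        generalize i n = j
        fin_cases j
        · show |U3.form x (al 0)| ≤ _
          linarith
        · show |U3.form x (al 1)| ≤ _
          linarith
        · show |U3.form x (al 2)| ≤ _
          linarith) hsu hsβ
    have hβ0 : ∀ n, g n (al (i n)) ≠ 0 := fun n h =>
      al_ne_zero (i n) ((g n).injective (h.trans (map_zero _).symm))
    refine acc_of_seq hv hβ0 hconv ?_ ?_
    · intro n
      refine ⟨i n, ?_⟩
      rw [U3.orbit_mk]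
      exact ⟨g n, hg n, hβ0 n, rfl⟩
    · intro n
      apply mk_ne_of_form _ _ _ hvv
      rw [form_root (hg n)]
      exact one_ne_zero

/-! ### The point outside and the points inside -/

/-- The smaller root `(3 - √5) / 2` of `r ^ 2 = 3 r - 1`. -/
noncomputable def rr : ℝ := (3 - Real.sqrt 5) / 2

lemma rr_sq : rr ^ 2 = 3 * rr - 1 := by
  unfold rr
  have h : Real.sqrt 5 ^ 2 = 5 := Real.sq_sqrt (by norm_num)
  nlinarith

lemma sqrt5_lt : Real.sqrt 5 < 3 := by
  rw [Real.sqrt_lt' (by norm_num)]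
  norm_num

lemma lt_sqrt5 : 2 < Real.sqrt 5 := by
  rw [Real.lt_sqrt (by norm_num)]
  norm_num

lemma rr_pos : 0 < rr := by
  unfold rr
  linarith [sqrt5_lt]

lemma rr_lt : rr < 1 / 2 := by
  unfold rr
  linarith [lt_sqrt5]

/-- The weight. -/
def om : Fin 3 → ℝ := ![-3, -3, 1]
/-- The contracted eigenvector. -/
noncomputable def Yv : Fin 3 → ℝ := ![rr, 1, 0]
/-- The expanded eigenvector. -/
noncomputable def Xv : Fin 3 → ℝ := ![1, rr, 0]

/-- The product of the first two reflections. -/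
noncomputable def ww : (Fin 3 → ℝ) ≃ₗ[ℝ] (Fin 3 → ℝ) := U3.refl 0 * U3.refl 1

lemma ww_mem : ww ∈ U3.W :=
  U3.W.mul_mem (Subgroup.subset_closure ⟨0, rfl⟩) (Subgroup.subset_closure ⟨1, rfl⟩)

lemma refl_formula (i : Fin 3) (x : Fin 3 → ℝ) (j : Fin 3) :
    U3.refl i x j = if j = i then 3 * sg x - 4 * x i else x j := by
  rw [U3.refl_apply, U3_form_al]
  unfold sg al
  fin_cases i <;> fin_cases j <;> simp <;> ring

lemma ww_formula (x : Fin 3 → ℝ) :
    ww x = ![8 * x 0 - 3 * x 1 + 12 * x 2, 3 * x 0 - x 1 + 3 * x 2, x 2] := by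
  have h1 : ww x = U3.refl 0 (U3.refl 1 x) := rfl
  rw [h1]
  ext j
  rw [refl_formula]
  unfold sg
  rw [refl_formula, refl_formula, refl_formula]
  unfold sg
  fin_cases j <;> simp [refl_formula, sg] <;> ring

lemma ww_om : ww om = om := by
  rw [ww_formula]
  ext j
  unfold om
  fin_cases j <;> simp <;> norm_num

lemma ww_Xv : rr ^ 2 • ww Xv = Xv := by
  rw [ww_formula]
  have h := rr_sq
  ext j
  unfold Xv
  fin_cases j
  · simp
    rw [h]
    nlinarith
  · simp
    rw [h]
    nlinarith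
  · simp

lemma ww_Yv : ww Yv = rr ^ 2 • Yv := by
  rw [ww_formula]
  have h := rr_sq
  ext j
  unfold Yv
  fin_cases j
  · simp
    rw [h]
    nlinarith
  · simp
    rw [h]
  · simp

lemma pow_om (n : ℕ) : (ww ^ n) om = om := by
  induction n with
  | zero => rfl
  | succ n ih =>
      rw [pow_succ]
      show (ww ^ n) (ww om) = om
      rw [ww_om, ih]

lemma pow_Yv (n : ℕ) : (ww ^ n) Yv = (rr ^ 2) ^ n • Yv := by
  induction n with
  | zero =>
      rw [pow_zero, pow_zero, one_smul]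
      rfl
  | succ n ih =>
      rw [pow_succ]
      show (ww ^ n) (ww Yv) = _
      rw [ww_Yv, map_smul, ih, smul_smul, ← pow_succ']

lemma pow_Xv (n : ℕ) : (rr ^ 2) ^ n • (ww ^ n) Xv = Xv := by
  induction n with
  | zero =>
      rw [pow_zero, pow_zero, one_smul]
      rfl
  | succ n ih =>
      rw [pow_succ ww]
      show (rr ^ 2) ^ (n + 1) • (ww ^ n) (ww Xv) = _
      rw [pow_succ, ← smul_smul, ← map_smul, ww_Xv, ih]

/-- The limit point, which is not in the catchment set. -/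
noncomputable def xx : Fin 3 → ℝ := om - Yv

/-- The points of the catchment set tending to it. -/
noncomputable def xs (n : ℕ) : Fin 3 → ℝ := om - Yv - ((rr ^ 2) ^ n * (rr ^ 2) ^ n) • Xv

/-- Their translates. -/
noncomputable def zs (n : ℕ) : Fin 3 → ℝ := om - (rr ^ 2) ^ n • Yv - (rr ^ 2) ^ n • Xv

lemma pow_xx (n : ℕ) : (ww ^ n) xx = om - (rr ^ 2) ^ n • Yv := by
  unfold xx
  rw [map_sub, pow_om, pow_Yv]

lemma pow_xs (n : ℕ) : (ww ^ n) (xs n) = zs n := by
  unfold xs zs
  rw [map_sub, map_sub, pow_om, pow_Yv, map_smul, ← smul_smul, pow_Xv]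

lemma pow_rr : Tendsto (fun n : ℕ => (rr ^ 2) ^ n) atTop (𝓝 0) := by
  apply tendsto_pow_atTop_nhds_zero_of_lt_one
  · positivity
  · have h1 := rr_pos
    have h2 := rr_lt
    nlinarith

lemma om_ne : om ≠ 0 := by
  intro h
  have := congrFun h 2
  simp [om] at this

lemma third_ne {u : Fin 3 → ℝ} (h : u 2 = 1) : u ≠ 0 := by
  intro h'
  rw [h'] at h
  exact zero_ne_one h

lemma xx_ne : xx ≠ 0 := third_ne (by simp [xx, om, Yv])
lemma xs_ne (n : ℕ) : xs n ≠ 0 := third_ne (by simp [xs, om, Yv, Xv])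
lemma zs_ne (n : ℕ) : zs n ≠ 0 := third_ne (by simp [zs, om, Yv, Xv])

/-- The weight is a limit direction of `xx`. -/
lemma om_limDir : Projectivization.mk ℝ om om_ne ∈ U3.limDir (Projectivization.mk ℝ xx xx_ne) := by
  have hu : ∀ n, (ww ^ n) xx ≠ 0 := fun n h => xx_ne ((ww ^ n).injective (h.trans (map_zero _).symm))
  have hlim : Tendsto (fun n => (1 : ℝ) • (ww ^ n) xx) atTop (𝓝 om) := by
    have h1 : Tendsto (fun n : ℕ => om - (rr ^ 2) ^ n • Yv) atTop (𝓝 (om - (0 : ℝ) • Yv)) :=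
      tendsto_const_nhds.sub (pow_rr.smul_const Yv)
    rw [zero_smul, sub_zero] at h1
    refine h1.congr (fun n => ?_)
    rw [one_smul, pow_xx]
  refine acc_of_seq (a := fun _ => 1) om_ne hu hlim ?_ ?_
  · intro n
    rw [U3.orbit_mk]
    exact ⟨ww ^ n, U3.W.pow_mem ww_mem n, hu n, rfl⟩
  · intro n h
    rw [Projectivization.mk_eq_mk_iff'] at h
    obtain ⟨a, ha⟩ := h
    rw [pow_xx] at ha
    have h2 : a = 1 := by
      have := congrFun ha 2
      simpa [om, Yv] using this
    have h1 := congrFun ha 1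
    rw [h2, one_smul] at h1
    have hp : 0 < (rr ^ 2) ^ n := by
      have := rr_pos
      positivity
    have h3 : om 1 = om 1 - (rr ^ 2) ^ n := by simpa [Yv] using h1
    linarith

lemma form_om : U3.form om om = 10 := by
  rw [U3_form]
  simp [om, sg]
  norm_num

lemma om_not_limRoot : Projectivization.mk ℝ om om_ne ∉ U3.limRoots := by
  intro h
  obtain ⟨_, _, _, _, _, _, _, h1⟩ := limRoot_seq om_ne h
  rw [form_om] at h1
  norm_num at h1

lemma xx_not : Projectivization.mk ℝ xx xx_ne ∉ catchment U3 := by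
  intro h
  have h1 : U3.limDir (Projectivization.mk ℝ xx xx_ne) = U3.limRoots := h
  apply om_not_limRoot
  rw [← h1]
  exact om_limDir

lemma zs_catch (n : ℕ) (hn : 1 ≤ n) : Projectivization.mk ℝ (zs n) (zs_ne n) ∈ catchment U3 := by
  have hp : 0 < (rr ^ 2) ^ n := by
    have := rr_pos
    positivity
  have hr := rr_pos
  have hr2 := rr_lt
  have hq : (rr ^ 2) ^ n ≤ rr ^ 2 := by
    have h1 : (rr ^ 2) ^ n ≤ (rr ^ 2) ^ 1 :=
      pow_le_pow_of_le_one (by positivity) (by nlinarith) hn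
    rwa [pow_one] at h1
  set q : ℝ := (rr ^ 2) ^ n with hqdef
  have z0 : zs n 0 = -3 - q * rr - q := by simp [zs, om, Yv, Xv, ← hqdef]
  have z1 : zs n 1 = -3 - q - q * rr := by simp [zs, om, Yv, Xv, ← hqdef]
  have z2 : zs n 2 = 1 := by simp [zs, om, Yv, Xv]
  have hs : sg (zs n) = -5 - 2 * q * (1 + rr) := by
    unfold sg
    rw [z0, z1, z2]
    ring
  have hm : 0 < q * (1 + rr) / 2 := by positivity
  have hform : ∀ j, q * (1 + rr) / 2 ≤ U3.form (al j) (zs n) := by
    intro j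
    rw [U3_form_al, hs]
    have hqr : 0 < q * (1 + rr) := by positivity
    fin_cases j
    · show q * (1 + rr) / 2 ≤ 5 / 2 * zs n 0 - 3 / 2 * (-5 - 2 * q * (1 + rr))
      rw [z0]
      linarith
    · show q * (1 + rr) / 2 ≤ 5 / 2 * zs n 1 - 3 / 2 * (-5 - 2 * q * (1 + rr))
      rw [z1]
      linarith
    · show q * (1 + rr) / 2 ≤ 5 / 2 * zs n 2 - 3 / 2 * (-5 - 2 * q * (1 + rr))
      rw [z2]
      linarith
  have hff : U3.form (zs n) (zs n) ≠ 0 := by
    rw [U3_form, hs, z0, z1, z2]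
    have h1 : q * (1 + rr) < 1 := by
      have h2 : q * (1 + rr) ≤ rr ^ 2 * (1 + rr) := by gcongr
      nlinarith
    have h3 : 0 < q * (1 + rr) := by positivity
    have h4 : 5 / 2 * ((-3 - q * rr - q) * (-3 - q * rr - q) +
        (-3 - q - q * rr) * (-3 - q - q * rr) + 1 * 1) -
        3 / 2 * (-5 - 2 * q * (1 + rr)) * (-5 - 2 * q * (1 + rr)) =
        10 - (q * (1 + rr)) ^ 2 := by ring
    rw [h4]
    have h5 : (q * (1 + rr)) ^ 2 < 1 := by nlinarith
    linarith
  exact Set.Subset.antisymm (subset_limRoots (zs_ne n) hm hform)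
    (limRoots_subset (zs_ne n) hm hform hff)

lemma xs_catch (n : ℕ) (hn : 1 ≤ n) : Projectivization.mk ℝ (xs n) (xs_ne n) ∈ catchment U3 := by
  have h1 := zs_catch n hn
  have h2 : (ww ^ n) (xs n) ≠ 0 := by
    rw [pow_xs]
    exact zs_ne n
  have h3 := U3.orbit_eq (xs_ne n) (U3.W.pow_mem ww_mem n) h2
  have h4 : U3.limDir (Projectivization.mk ℝ (zs n) (zs_ne n)) =
      U3.limDir (Projectivization.mk ℝ (xs n) (xs_ne n)) := by
    unfold GeomCoxeter.limDir
    rw [← h3]
    simp only [pow_xs]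
  show U3.limDir (Projectivization.mk ℝ (xs n) (xs_ne n)) = U3.limRoots
  rw [← h4]
  exact h1

lemma xs_tendsto : Tendsto xs atTop (𝓝 xx) := by
  have h1 : Tendsto (fun n : ℕ => om - Yv - ((rr ^ 2) ^ n * (rr ^ 2) ^ n) • Xv) atTop
      (𝓝 (om - Yv - ((0 : ℝ) * 0) • Xv)) :=
    tendsto_const_nhds.sub ((pow_rr.mul pow_rr).smul_const Xv)
  rw [mul_zero, zero_smul, sub_zero] at h1
  exact h1

/-- There is a Lorentzian Coxeter system whose catchment set of limit roots is not closed. -/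
theorem result : ∃ D : GeomCoxeter (Fin 3), D.Lorentzian ∧ ¬ IsClosed (catchment D) := by
  refine ⟨U3, U3_lorentzian, ?_⟩
  intro hcl
  apply xx_not
  refine hcl.mem_of_tendsto (tendsto_mk xx_ne xs_ne xs_tendsto) ?_
  filter_upwards [eventually_ge_atTop 1] with n hn
  exact xs_catch n hn

end Pool.Agent.Results.MP_241ca8_al.CatchmentNotClosed
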